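import Pool.Agent.NDC.Phi

/-! # Faithfulness of the Nakayama families (row NDC, helper40) -/

open CategoryTheory MonoidalCategory Limits

universe v u

set_option linter.unusedSectionVars false

noncomputable section

namespace Pool.Agent.NDC

open MUG

variable {k : Type*} [Field k] [IsAlgClosed k] {C : Type u} [Category.{v} C] [Abelian C]
  [Linear k C] [MonoidalCategory C] [MonoidalPreadditive C] [MonoidalLinear k C]
  [RigidCategory C]

/-- The mate of `g : K ⟶ V`. -/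
def mt {K V : C} (g : K ⟶ V) : 𝟙_ C ⟶ V ⊗ Kᘁ := η_ K (Kᘁ) ≫ g ▷ Kᘁ

theorem mt_inv {K V : C} (g : K ⟶ V) :
    (λ_ K).inv ≫ (mt g) ▷ K ≫ (α_ V (Kᘁ) K).hom ≫ V ◁ ε_ K (Kᘁ) ≫ (ρ_ V).hom = g := by
  have h := ExactPairing.evaluation_coevaluation K (Kᘁ)
  calc (λ_ K).inv ≫ (mt g) ▷ K ≫ (α_ V (Kᘁ) K).hom ≫ V ◁ ε_ K (Kᘁ) ≫ (ρ_ V).hom
      = (λ_ K).inv ≫ (η_ K (Kᘁ) ▷ K ≫ (α_ K (Kᘁ) K).hom ≫ (g ▷ (Kᘁ ⊗ K) ≫
          V ◁ ε_ K (Kᘁ))) ≫ (ρ_ V).hom := by
        rw [mt, MonoidalCategory.comp_whiskerRight]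
        simp only [Category.assoc, associator_naturality_left_assoc]
    _ = (λ_ K).inv ≫ (η_ K (Kᘁ) ▷ K ≫ (α_ K (Kᘁ) K).hom ≫ K ◁ ε_ K (Kᘁ)) ≫ g ▷ (𝟙_ C) ≫
          (ρ_ V).hom := by
        rw [← whisker_exchange]
        simp only [Category.assoc]
    _ = g := by
        rw [h]
        simp

theorem mt_eq_zero {K V : C} {g : K ⟶ V} (h : mt g = 0) : g = 0 := by
  have h1 := mt_inv g
  rw [h, MonoidalPreadditive.zero_whiskerRight, zero_comp, comp_zero] at h1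
  exact h1.symm

/-- `mt` as a linear map. -/
def mtL (k : Type*) [Field k] [Linear k C] [MonoidalLinear k C] (K V : C) :
    (K ⟶ V) →ₗ[k] (𝟙_ C ⟶ V ⊗ Kᘁ) where
  toFun := mt
  map_add' g g' := by
    rw [mt, mt, mt, MonoidalPreadditive.add_whiskerRight, Preadditive.comp_add]
  map_smul' a g := by
    rw [mt, mt, MonoidalLinear.smul_whiskerRight, Linear.comp_smul]
    rfl

theorem mtL_inj (K V : C) : Function.Injective (mtL k K V) := by
  rw [injective_iff_map_eq_zero]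
  exact fun g hg => mt_eq_zero hg

/-- The family with coefficients in `K`. -/
def cc (Y I : C) {K P : C} (κ : K ⟶ P) : Y ⊗ I ⟶ P ⊗ (Kᘁ ⊗ (Y ⊗ I)) :=
  (λ_ (Y ⊗ I)).inv ≫ η_ K (Kᘁ) ▷ (Y ⊗ I) ≫ (α_ K (Kᘁ) (Y ⊗ I)).hom ≫ κ ▷ (Kᘁ ⊗ (Y ⊗ I))

theorem phi_cc (hC : FinCat k C) {P : C} (N : Nak k P) (Y : C) {K : C} (κ : K ⟶ P) (V : C) :
    phi hC N (cc Y N.I κ) V = (λ_ (Y ⊗ V)).inv ≫
      (∑ i, (mt (κ ≫ bas hC P V i) ⊗ₘ (Y ◁ N.θ ((bas hC P V).coord i)))) ≫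
        (α_ V (Kᘁ) (Y ⊗ N.I)).hom := by
  rw [phi, Preadditive.sum_comp, Preadditive.comp_sum]
  refine Finset.sum_congr rfl fun i _ => ?_
  rw [cc, MonoidalCategory.tensorHom_def', mt]
  simp only [Category.assoc, MonoidalCategory.comp_whiskerRight, associator_naturality_left,
    associator_naturality_left_assoc]
  rw [leftUnitor_inv_naturality_assoc]

/-- The independence lemma for arbitrary families. -/
theorem indep' (hfin : ∀ X Y : C, Module.Finite k (X ⟶ Y)) (h1 : Simple (𝟙_ C)) {A B T : C}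
    {n : ℕ} (t : Fin n → (𝟙_ C ⟶ T)) (w : Fin n → (A ⟶ B))
    (hs : ∑ i, (t i ⊗ₘ w i) = 0) (ℓ : (𝟙_ C ⟶ T) →ₗ[k] k) : ∑ i, ℓ (t i) • w i = 0 := by
  have := hfin (𝟙_ C) T
  let τ := Module.finBasis k (𝟙_ C ⟶ T)
  have e1 : ∑ j, (τ j ⊗ₘ ∑ i, (τ.coord j (t i)) • w i) = 0 := by
    rw [← hs]
    have e2 : ∀ i, (t i ⊗ₘ w i) = ∑ j, (τ.coord j (t i)) • (τ j ⊗ₘ w i) := by
      intro i
      conv_lhs => rw [← τ.sum_repr (t i)]
      rw [sum_tensor]
      refine Finset.sum_congr rfl fun j _ => ?_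
      rw [MonoidalCategory.tensorHom_def, MonoidalCategory.tensorHom_def,
        MonoidalLinear.smul_whiskerRight, Linear.smul_comp]
      rfl
    rw [Finset.sum_congr rfl fun i _ => e2 i, Finset.sum_comm]
    refine Finset.sum_congr rfl fun j _ => ?_
    rw [tensor_sum]
    refine Finset.sum_congr rfl fun i _ => ?_
    rw [MonoidalCategory.tensorHom_def, MonoidalCategory.tensorHom_def,
      MonoidalLinear.whiskerLeft_smul, Linear.comp_smul]
  have e3 := indep hfin h1 _ (fun j => τ j) (fun j => ∑ i, (τ.coord j (t i)) • w i)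
    τ.linearIndependent e1
  have e4 : ∀ i, ℓ (t i) = ∑ j, (τ.coord j (t i)) * ℓ (τ j) := by
    intro i
    conv_lhs => rw [← τ.sum_repr (t i)]
    rw [map_sum]
    refine Finset.sum_congr rfl fun j _ => ?_
    rw [map_smul, smul_eq_mul]
    rfl
  calc ∑ i, ℓ (t i) • w i = ∑ i, ∑ j, ℓ (τ j) • ((τ.coord j (t i)) • w i) := by
        refine Finset.sum_congr rfl fun i _ => ?_
        rw [e4, Finset.sum_smul]
        refine Finset.sum_congr rfl fun j _ => ?_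
        rw [smul_smul, mul_comm]
    _ = ∑ j, ℓ (τ j) • ∑ i, (τ.coord j (t i)) • w i := by
        rw [Finset.sum_comm]
        exact Finset.sum_congr rfl fun j _ => (Finset.smul_sum).symm
    _ = 0 := Finset.sum_eq_zero fun j _ => by rw [e3 j, smul_zero]

theorem unit_whisker_eq_zero {A B : C} {w : A ⟶ B} (h : (𝟙_ C) ◁ w = 0) : w = 0 := by
  have h9 := MonoidalCategory.id_whiskerLeft w
  rw [h] at h9
  rw [← cancel_epi (λ_ A).hom, ← cancel_mono (λ_ B).inv, Category.assoc, ← h9]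
  simp

theorem whisker_unit_eq_zero {A B : C} {w : A ⟶ B} (h : w ▷ (𝟙_ C) = 0) : w = 0 := by
  have h9 := MonoidalCategory.whiskerRight_id w
  rw [h] at h9
  rw [← cancel_epi (ρ_ A).hom, ← cancel_mono (ρ_ B).inv, Category.assoc, ← h9]
  simp

/-- If the family `phi` with source `𝟙_` and coefficients in `K` vanishes at `X`, all maps
`P ⟶ X` vanish on `K`. -/
theorem kill_of_phi (hC : FinCat k C) (h1 : Simple (𝟙_ C)) {P : C} (N : Nak k P) {K : C}
    (κ : K ⟶ P) {X : C} (h : phi hC N (cc (𝟙_ C) N.I κ) X = 0) (g : P ⟶ X) : κ ≫ g = 0 := by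
  rw [phi_cc] at h
  have h2 : (∑ i, (mt (κ ≫ bas hC P X i) ⊗ₘ ((𝟙_ C) ◁ N.θ ((bas hC P X).coord i)))) = 0 := by
    rw [← cancel_epi (λ_ ((𝟙_ C) ⊗ X)).inv, ← cancel_mono (α_ X (Kᘁ) ((𝟙_ C) ⊗ N.I)).hom,
      Category.assoc, h]
    simp
  have h3 : ∀ i, κ ≫ bas hC P X i = 0 := by
    intro i
    apply mt_eq_zero
    have := hC.hom_finite (𝟙_ C) (X ⊗ Kᘁ)
    rw [← Module.forall_dual_apply_eq_zero_iff k]
    intro ℓ
    have h4 := indep' hC.hom_finite h1 _ _ h2 ℓ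
    have h5 : N.θ (∑ i, ℓ (mt (κ ≫ bas hC P X i)) • (bas hC P X).coord i) = 0 := by
      apply unit_whisker_eq_zero
      rw [N.θ_sum, whiskerLeft_sum, ← h4]
      refine Finset.sum_congr rfl fun i _ => ?_
      rw [N.θ_smul, MonoidalLinear.whiskerLeft_smul]
    have h6 := N.θ_inj h5
    have h7 := LinearMap.congr_fun h6 (bas hC P X i)
    rw [LinearMap.sum_apply, Finset.sum_eq_single i] at h7
    · rw [LinearMap.smul_apply, Module.Basis.coord_apply, Module.Basis.repr_self,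
        Finsupp.single_eq_same, smul_eq_mul, mul_one] at h7
      exact h7
    · intro j _ hj
      rw [LinearMap.smul_apply, Module.Basis.coord_apply, Module.Basis.repr_self,
        Finsupp.single_eq_of_ne (by exact hj), smul_zero]
    · intro hi
      exact absurd (Finset.mem_univ i) hi
  conv_lhs => rw [← (bas hC P X).sum_repr g]
  rw [Preadditive.comp_sum]
  refine Finset.sum_eq_zero fun i _ => ?_
  rw [Linear.comp_smul, h3 i, smul_zero]

/-- A natural family from `Y` which is faithful at the unit object. -/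
theorem phi_faithful (hC : FinCat k C) (h1 : Simple (𝟙_ C)) {P : C} (N : Nak k P)
    (hP : ∃ g : P ⟶ 𝟙_ C, g ≠ 0) (Y : C) {Y' : C} (v : Y' ⟶ Y)
    (hv : v ▷ (𝟙_ C) ≫ phi hC N (cc Y N.I (𝟙 P)) (𝟙_ C) = 0) : v = 0 := by
  rw [phi_cc] at hv
  have h2 : ∑ i, (mt (𝟙 P ≫ bas hC P (𝟙_ C) i) ⊗ₘ
      (v ▷ (𝟙_ C) ≫ Y ◁ N.θ ((bas hC P (𝟙_ C)).coord i))) = 0 := by
    rw [← cancel_epi (λ_ (Y' ⊗ 𝟙_ C)).inv, ← cancel_mono (α_ (𝟙_ C) (Pᘁ) (Y ⊗ N.I)).hom,
      comp_zero, zero_comp, ← hv, Category.assoc]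
    have h3 : v ▷ (𝟙_ C) ≫ (λ_ (Y ⊗ 𝟙_ C)).inv = (λ_ (Y' ⊗ 𝟙_ C)).inv ≫
        (𝟙_ C) ◁ (v ▷ (𝟙_ C)) := leftUnitor_inv_naturality _
    rw [← Category.assoc (v ▷ (𝟙_ C)), h3, Category.assoc]
    congr 1
    rw [← Category.assoc]
    congr 1
    rw [Preadditive.comp_sum]
    refine Finset.sum_congr rfl fun i _ => ?_
    rw [MonoidalCategory.tensorHom_def', MonoidalCategory.tensorHom_def',
      MonoidalCategory.whiskerLeft_comp, Category.assoc]
  have hli : LinearIndependent k (fun i => mt (𝟙 P ≫ bas hC P (𝟙_ C) i)) := by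
    have h4 := (bas hC P (𝟙_ C)).linearIndependent.map' (mtL k P (𝟙_ C))
      (LinearMap.ker_eq_bot.2 (mtL_inj P (𝟙_ C)))
    have h5 : (fun i => mt (𝟙 P ≫ bas hC P (𝟙_ C) i)) =
        (⇑(mtL k P (𝟙_ C)) ∘ ⇑(bas hC P (𝟙_ C))) := by
      funext i
      rw [Category.id_comp]
      rfl
    rw [h5]
    exact h4
  have h6 := indep hC.hom_finite h1 _ _ _ hli h2
  obtain ⟨g, hg⟩ := hP
  have hfin := hC.hom_finite P (𝟙_ C)
  have hnt : Nontrivial (P ⟶ 𝟙_ C) := ⟨g, 0, hg⟩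
  have hpos : 0 < Module.finrank k (P ⟶ 𝟙_ C) := Module.finrank_pos
  let i₀ : Fin (Module.finrank k (P ⟶ 𝟙_ C)) := ⟨0, hpos⟩
  have hθ : N.θ ((bas hC P (𝟙_ C)).coord i₀) ≠ 0 := by
    intro h0
    have h7 := LinearMap.congr_fun (N.θ_inj h0) (bas hC P (𝟙_ C) i₀)
    rw [Module.Basis.coord_apply, Module.Basis.repr_self, Finsupp.single_eq_same] at h7
    exact one_ne_zero h7
  have hm : Mono (N.θ ((bas hC P (𝟙_ C)).coord i₀)) := mono_of_nonzero_from_simple hθ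
  have h8 : v ▷ (𝟙_ C) = 0 := by
    rw [← cancel_mono (Y ◁ N.θ ((bas hC P (𝟙_ C)).coord i₀)), h6 i₀, zero_comp]
  exact whisker_unit_eq_zero h8

end Pool.Agent.NDC
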