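import Pool.Agent.NDC.Cofree
import Pool.Agent.NDC.Phi2
import Pool.Agent.MUG.CF1
import Pool.Agent.MUG.CF2
import Pool.Agent.MUG.CFN

/-! # The Mueger center of the Drinfeld center is trivial (row NDC, helper40) -/

open CategoryTheory MonoidalCategory Limits ZeroObject

universe v u

set_option linter.unusedSectionVars false
set_option backward.isDefEq.respectTransparency.types false

attribute [local instance] CategoryTheory.Abelian.hasFiniteBiproducts

noncomputable section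

namespace Pool.Agent.NDC

open MUG

section Hom

variable {k : Type*} [Field k] [IsAlgClosed k] {C : Type u} [Category.{v} C] [Abelian C]
  [Linear k C] [MonoidalCategory C] [MonoidalPreadditive C] [MonoidalLinear k C]
  [RigidCategory C]

theorem tensor_unit_form {A T : C} (t : 𝟙_ C ⟶ T) (w : A ⟶ 𝟙_ C) :
    (t ⊗ₘ w) = (λ_ A).hom ≫ (w ≫ t) ≫ (ρ_ T).inv := by
  rw [MonoidalCategory.tensorHom_def']
  have h1 : (𝟙_ C) ◁ w = (λ_ A).hom ≫ w ≫ (λ_ (𝟙_ C)).inv := MonoidalCategory.id_whiskerLeft w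
  have h2 : t ▷ (𝟙_ C) = (ρ_ (𝟙_ C)).hom ≫ t ≫ (ρ_ T).inv := MonoidalCategory.whiskerRight_id t
  rw [h1, h2]
  have h3 : (λ_ (𝟙_ C)).inv ≫ (ρ_ (𝟙_ C)).hom = 𝟙 _ := by
    rw [← unitors_equal, Iso.inv_hom_id]
  simp only [Category.assoc]
  rw [← Category.assoc (λ_ (𝟙_ C)).inv, h3, Category.id_comp]

theorem sum_tensor_unit {A T : C} {n : ℕ} (t : Fin n → (𝟙_ C ⟶ T)) (w : Fin n → (A ⟶ 𝟙_ C))
    (h : ∑ i, w i ≫ t i = 0) : ∑ i, (t i ⊗ₘ w i) = 0 := by
  have h1 : ∑ i, (t i ⊗ₘ w i) = (λ_ A).hom ≫ (∑ i, w i ≫ t i) ≫ (ρ_ T).inv := by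
    rw [Preadditive.sum_comp, Preadditive.comp_sum]
    exact Finset.sum_congr rfl fun i _ => tensor_unit_form _ _
  rw [h1, h, zero_comp, comp_zero]

/-- The canonical map to a sum of units is epi. -/
theorem epi_lift_bas (hC : FinCat k C) (h1 : Simple (𝟙_ C)) (Q : C) :
    Epi (biproduct.lift (bas hC Q (𝟙_ C))) := by
  refine Preadditive.epi_of_cancel_zero _ fun {T} g hg => ?_
  have h2 : ∑ i, bas hC Q (𝟙_ C) i ≫ (biproduct.ι (fun _ => 𝟙_ C) i ≫ g) = 0 := by
    rw [← hg, biproduct.lift_eq, Preadditive.sum_comp]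
    exact Finset.sum_congr rfl fun i _ => by rw [Category.assoc]
  have h3 := sum_tensor_unit (fun i => biproduct.ι (fun _ => 𝟙_ C) i ≫ g)
    (fun i => bas hC Q (𝟙_ C) i) h2
  refine biproduct.hom_ext' _ _ fun i => ?_
  rw [comp_zero]
  have := hC.hom_finite (𝟙_ C) T
  rw [← Module.forall_dual_apply_eq_zero_iff k]
  intro ℓ
  have h4 := indep' hC.hom_finite h1 _ _ h3 ℓ
  have h5 := (bas hC Q (𝟙_ C)).linearIndependent
  rw [Fintype.linearIndependent_iff] at h5
  exact h5 _ h4 i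

end Hom

section Main

variable {k : Type*} [Field k] [IsAlgClosed k] {C : Type u} [Category.{v} C] [Abelian C]
  [Linear k C] [MonoidalCategory C] [MonoidalPreadditive C] [MonoidalLinear k C]
  [RigidCategory C]

/-- Transparency in terms of half-braidings. -/
theorem comm_f {X N : Center C} (h : Comm X N) :
    (X.2.β N.1).hom ≫ (N.2.β X.1).hom = 𝟙 (X.1 ⊗ N.1) :=
  congrArg (fun f => f.f) h

theorem comm_f' {X N : Center C} (h : Comm X N) :
    (N.2.β X.1).hom ≫ (X.2.β N.1).hom = 𝟙 (N.1 ⊗ X.1) := by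
  have h1 : (N.2.β X.1).hom = (X.2.β N.1).inv := by
    rw [← cancel_epi (X.2.β N.1).hom, comm_f h, Iso.hom_inv_id]
  rw [h1, Iso.inv_hom_id]

/-- (star): a natural family which vanishes at the unit vanishes on transparent objects. -/
theorem star (hC : FinCat k C) {X : Center C} (hX : ∀ Y : Center C, Comm X Y) {W : C}
    (f : NatFam (𝟙_ C) W) (h0 : f.f (𝟙_ C) = 0) : f.f X.1 = 0 := by
  obtain ⟨N, ω, hN⟩ := exists_cofree hC W
  obtain ⟨y, hy, -⟩ := hN _ f
  have h1 : y ≫ ω = 0 := by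
    have h2 := hy (𝟙_ C)
    rw [h0, hb_unit] at h2
    have h3 : y ▷ (𝟙_ C) ≫ ((ρ_ N.1).hom ≫ (λ_ N.1).inv) ≫ (𝟙_ C) ◁ ω =
        (ρ_ (𝟙_ C)).hom ≫ (y ≫ ω) ≫ (λ_ W).inv := by
      rw [Category.assoc, rightUnitor_naturality_assoc, Category.assoc]
      congr 2
      exact (leftUnitor_inv_naturality ω).symm
    rw [h3] at h2
    rw [← cancel_epi (ρ_ (𝟙_ C)).hom, ← cancel_mono (λ_ W).inv, Category.assoc, ← h2]
    simp
  have h4 : (X.2.β (𝟙_ C)).hom ≫ f.f X.1 = 0 := by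
    rw [hy X.1]
    have h5 : X.1 ◁ y ≫ (X.2.β N.1).hom = (X.2.β (𝟙_ C)).hom ≫ y ▷ X.1 := X.2.naturality y
    rw [← Category.assoc, ← h5, Category.assoc, ← Category.assoc (X.2.β N.1).hom,
      comm_f (hX N), Category.id_comp, ← MonoidalCategory.whiskerLeft_comp, h1,
      MonoidalPreadditive.whiskerLeft_zero]
  rw [← cancel_epi (X.2.β (𝟙_ C)).hom, h4, comp_zero]

/-- Every map from a projective separator to a transparent object factors through a sum of
units. -/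
theorem factor_units (hC : FinCat k C) (h1 : Simple (𝟙_ C)) {X : Center C}
    (hX : ∀ Y : Center C, Comm X Y) (Q : C) [Projective Q] (g : Q ⟶ X.1) :
    ∃ g' : (⨁ fun _ : Fin (Module.finrank k (Q ⟶ 𝟙_ C)) => 𝟙_ C) ⟶ X.1,
      biproduct.lift (bas hC Q (𝟙_ C)) ≫ g' = g := by
  obtain ⟨N⟩ := exists_Nak hC Q
  set E := biproduct.lift (bas hC Q (𝟙_ C)) with hE
  have hepi : Epi E := epi_lift_bas hC h1 Q
  let κ := kernel.ι E
  have hκ : ∀ i, κ ≫ bas hC Q (𝟙_ C) i = 0 := by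
    intro i
    have h2 : E ≫ biproduct.π _ i = bas hC Q (𝟙_ C) i := biproduct.lift_π _ _
    rw [← h2, ← Category.assoc, kernel.condition, zero_comp]
  have h0 : (phiFam hC N (cc (𝟙_ C) N.I κ)).f (𝟙_ C) = 0 := by
    change phi hC N (cc (𝟙_ C) N.I κ) (𝟙_ C) = 0
    rw [phi_cc]
    have h3 : (∑ i, (mt (κ ≫ bas hC Q (𝟙_ C) i) ⊗ₘ
        ((𝟙_ C) ◁ N.θ ((bas hC Q (𝟙_ C)).coord i)))) = 0 := by
      refine Finset.sum_eq_zero fun i _ => ?_
      rw [hκ i, mt, MonoidalPreadditive.zero_whiskerRight, comp_zero,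
        MonoidalPreadditive.zero_tensor]
    rw [h3, zero_comp, comp_zero]
  have h4 := star hC hX _ h0
  have h5 : κ ≫ g = 0 := kill_of_phi hC h1 N κ h4 g
  have h6 := (Fam.ses_epi E)
  exact ⟨h6.exact.desc g h5, h6.exact.g_desc g h5⟩

/-- Every map from the unit to a transparent object is central. -/
theorem central (hC : FinCat k C) (h1 : Simple (𝟙_ C)) {X : Center C}
    (hX : ∀ Y : Center C, Comm X Y) (h : 𝟙_ C ⟶ X.1) (Y : C) :
    h ▷ Y ≫ (X.2.β Y).hom = ((λ_ Y).hom ≫ (ρ_ Y).inv) ≫ Y ◁ h := by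
  obtain ⟨Q, hQP, hQ⟩ := Gen.exists_separator hC
  have hg : ∃ g : Q ⟶ 𝟙_ C, g ≠ 0 := by
    by_contra hcon
    push Not at hcon
    exact id_nonzero (𝟙_ C) (hQ _ fun f => by rw [hcon f, zero_comp])
  obtain ⟨M⟩ := exists_Nak hC Q
  let f : NatFam Y (Qᘁ ⊗ (Y ⊗ M.I)) := phiFam hC M (cc Y M.I (𝟙 Q))
  obtain ⟨N, ω, hN⟩ := exists_cofree hC (Qᘁ ⊗ (Y ⊗ M.I))
  obtain ⟨y, hy, hm⟩ := hN _ f
  have hmy : Mono y := hm fun {Y'} v hv => phi_faithful hC h1 M hg Y v (hv (𝟙_ C))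
  have h2 : h ▷ N.1 ≫ (X.2.β N.1).hom = ((λ_ N.1).hom ≫ (ρ_ N.1).inv) ≫ N.1 ◁ h := by
    have h3 : N.1 ◁ h ≫ (N.2.β X.1).hom = (N.2.β (𝟙_ C)).hom ≫ h ▷ N.1 := N.2.naturality h
    rw [← hb_unit_inv, ← cancel_epi (N.2.β (𝟙_ C)).hom, ← Category.assoc, ← h3,
      Category.assoc, comm_f' (hX N), Category.comp_id, Iso.hom_inv_id_assoc]
  have h5 : X.1 ◁ y ≫ (X.2.β N.1).hom = (X.2.β Y).hom ≫ y ▷ X.1 := X.2.naturality y
  rw [← cancel_mono (y ▷ X.1), Category.assoc, ← h5, ← Category.assoc, ← whisker_exchange,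
    Category.assoc, h2]
  simp only [Category.assoc]
  have h6 : Y ◁ h ≫ y ▷ X.1 = y ▷ (𝟙_ C) ≫ N.1 ◁ h := whisker_exchange y h
  have h7 : (𝟙_ C) ◁ y ≫ (λ_ N.1).hom = (λ_ Y).hom ≫ y := leftUnitor_naturality y
  have h8 : y ≫ (ρ_ N.1).inv = (ρ_ Y).inv ≫ y ▷ (𝟙_ C) := rightUnitor_inv_naturality y
  rw [h6, ← Category.assoc, h7, Category.assoc, ← Category.assoc y, h8, Category.assoc]

/-- The morphism of the center attached to a map from the unit to a transparent object. -/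
def cen (hC : FinCat k C) (h1 : Simple (𝟙_ C)) {X : Center C}
    (hX : ∀ Y : Center C, Comm X Y) (h : 𝟙_ C ⟶ X.1) : 𝟙_ (Center C) ⟶ X :=
  ⟨h, fun Y => central hC h1 hX h Y⟩

theorem sum_f {A B : Center C} {ι : Type*} (s : Finset ι) (g : ι → (A ⟶ B)) :
    (∑ i ∈ s, g i).f = ∑ i ∈ s, (g i).f :=
  (Center.forget C).map_sum (fun i => g i) s

/-- **The Mueger center of the Drinfeld center of a finite tensor category is trivial**: every
object of the Drinfeld center which centralizes all objects is a direct sum of copies of the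
unit object. -/
theorem center_nondegenerate (hC : IsFinite k C) (X : Center C)
    (hX : ∀ Y : Center C, Comm X Y) :
    ∃ n : ℕ, Nonempty (X ≅ ⨁ (fun _ : Fin n => 𝟙_ (Center C))) := by
  have hF := hC.finCat
  have h1 : Simple (𝟙_ C) := hC.unit
  let b := bas hF (𝟙_ C) X.1
  let can : (⨁ fun _ : Fin (Module.finrank k (𝟙_ C ⟶ X.1)) => 𝟙_ (Center C)) ⟶ X :=
    biproduct.desc fun j => cen hF h1 hX (b j)
  have hι : ∀ j, biproduct.ι (fun _ => 𝟙_ (Center C)) j ≫ can = cen hF h1 hX (b j) :=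
    fun j => biproduct.ι_desc _ _
  have hmono : Mono can := by
    refine Preadditive.mono_of_cancel_zero _ fun {A} v hv => ?_
    have h2 : ∑ j, (v ≫ biproduct.π _ j) ≫ cen hF h1 hX (b j) = 0 := by
      rw [← hv]
      conv_rhs => rw [← Category.comp_id v, ← biproduct.total, Preadditive.comp_sum,
        Preadditive.sum_comp]
      refine Finset.sum_congr rfl fun j _ => ?_
      rw [Category.assoc, Category.assoc, Category.assoc, hι j]
    have h3 : ∑ j, (v ≫ biproduct.π (fun _ => 𝟙_ (Center C)) j).f ≫ b j = 0 := by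
      have h4 := congrArg (fun f => f.f) h2
      simp only [sum_f] at h4
      exact h4
    have h5 := sum_tensor_unit _ (fun j => (v ≫ biproduct.π (fun _ => 𝟙_ (Center C)) j).f) h3
    have h6 := indep hF.hom_finite h1 _ _ _ b.linearIndependent h5
    refine biproduct.hom_ext _ _ fun j => ?_
    rw [zero_comp]
    exact Center.ext _ _ (h6 j)
  have hepi : Epi can := by
    refine Preadditive.epi_of_cancel_zero _ fun {T} g hg => ?_
    obtain ⟨Q, hQP, hQ⟩ := Gen.exists_separator hF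
    have h2 : ∀ j, b j ≫ g.f = 0 := by
      intro j
      have h3 : cen hF h1 hX (b j) ≫ g = 0 := by
        rw [← hι j, Category.assoc, hg, comp_zero]
      exact congrArg (fun f => f.f) h3
    have h4 : ∀ u : 𝟙_ C ⟶ X.1, u ≫ g.f = 0 := by
      intro u
      conv_lhs => rw [← b.sum_repr u]
      rw [Preadditive.sum_comp]
      refine Finset.sum_eq_zero fun j _ => ?_
      rw [Linear.smul_comp, h2 j, smul_zero]
    refine Center.ext _ _ (hQ g.f fun q => ?_)
    obtain ⟨q', hq'⟩ := factor_units hF h1 hX Q q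
    rw [← hq', Category.assoc]
    have h5 : q' ≫ g.f = 0 := by
      refine biproduct.hom_ext' _ _ fun i => ?_
      rw [comp_zero, ← Category.assoc, h4]
    rw [h5, comp_zero]
  have : IsIso can := isIso_of_mono_of_epi can
  exact ⟨_, ⟨(asIso can).symm⟩⟩

end Main

end Pool.Agent.NDC
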