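import Pool.Agent.NDC.Univ
import Pool.Agent.MUG.CenRig

/-! # The cofree object of the Drinfeld center (row NDC, helper40) -/

open CategoryTheory MonoidalCategory Limits ZeroObject

universe v u

set_option linter.unusedSectionVars false
set_option backward.isDefEq.respectTransparency.types false

noncomputable section

namespace Pool.Agent.NDC

open MUG

variable {k : Type*} [Field k] {C : Type u} [Category.{v} C] [Abelian C]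
  [Linear k C] [MonoidalCategory C] [MonoidalPreadditive C] [RigidCategory C]

section

variable {R W : C} (ρ : NatFam R W)

theorem uniq (hρ : ρ.Faithful) {A U : C} (g g' : A ⟶ U ⊗ R)
    (h : ∀ V, g ▷ V ≫ (α_ U R V).hom ≫ U ◁ ρ.f V = g' ▷ V ≫ (α_ U R V).hom ≫ U ◁ ρ.f V) :
    g = g' := by
  rw [← sub_eq_zero]
  set d := g - g' with hd
  have h1 : ∀ V, d ▷ V ≫ (α_ U R V).hom ≫ U ◁ ρ.f V = 0 := by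
    intro V
    have e : d ▷ V = g ▷ V - g' ▷ V := by
      rw [hd, sub_eq_add_neg, sub_eq_add_neg, MonoidalPreadditive.add_whiskerRight,
        cen_neg_whiskerRight]
    rw [e, Preadditive.sub_comp, h V, sub_self]
  rw [← Gen.left_symm_zero_iff (U := U) d]
  refine hρ _ _ fun V => ?_
  have h2 : (tensorLeftHomEquiv A U (Uᘁ) R).symm d =
      (Uᘁ : C) ◁ d ≫ (α_ _ _ _).inv ≫ ε_ U (Uᘁ) ▷ R ≫ (λ_ R).hom := by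
    simp [tensorLeftHomEquiv]
  rw [h2]
  calc ((Uᘁ : C) ◁ d ≫ (α_ _ _ _).inv ≫ ε_ U (Uᘁ) ▷ R ≫ (λ_ R).hom) ▷ V ≫ ρ.f V
      = 𝟙 _ ⊗≫ (Uᘁ : C) ◁ (d ▷ V) ⊗≫ (ε_ U (Uᘁ) ▷ (R ⊗ V) ≫ (𝟙_ C) ◁ ρ.f V) ⊗≫ 𝟙 _ := by monoidal
    _ = 𝟙 _ ⊗≫ (Uᘁ : C) ◁ (d ▷ V ≫ (α_ U R V).hom ≫ U ◁ ρ.f V) ⊗≫ (ε_ U (Uᘁ) ▷ (V ⊗ W)) ⊗≫
          𝟙 _ := by rw [← whisker_exchange]; monoidal
    _ = 0 := by rw [h1]; simp [monoidalComp]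

/-- The family used to define the half-braiding. -/
def famU (U : C) : NatFam (Uᘁ ⊗ (R ⊗ U)) W where
  f V := (α_ _ _ _).hom ≫ (Uᘁ : C) ◁ ((α_ _ _ _).hom ≫ ρ.f (U ⊗ V) ≫ (α_ _ _ _).hom) ≫
    (α_ _ _ _).inv ≫ ε_ U (Uᘁ) ▷ (V ⊗ W) ≫ (λ_ _).hom
  nat {V V'} h := by
    have e := ρ.nat (U ◁ h)
    calc (Uᘁ ⊗ (R ⊗ U)) ◁ h ≫ (α_ _ _ _).hom ≫ (Uᘁ : C) ◁ ((α_ _ _ _).hom ≫ ρ.f (U ⊗ V') ≫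
            (α_ _ _ _).hom) ≫ (α_ _ _ _).inv ≫ ε_ U (Uᘁ) ▷ (V' ⊗ W) ≫ (λ_ _).hom
        = 𝟙 _ ⊗≫ (Uᘁ : C) ◁ (R ◁ (U ◁ h) ≫ ρ.f (U ⊗ V')) ⊗≫ ε_ U (Uᘁ) ▷ (V' ⊗ W) ⊗≫ 𝟙 _ := by
          monoidal
      _ = 𝟙 _ ⊗≫ (Uᘁ : C) ◁ (ρ.f (U ⊗ V)) ⊗≫ ((Uᘁ ⊗ U) ◁ (h ▷ W) ≫ ε_ U (Uᘁ) ▷ (V' ⊗ W)) ⊗≫
            𝟙 _ := by rw [e]; monoidal
      _ = _ := by rw [whisker_exchange]; monoidal

theorem famU_f (U V : C) : (famU ρ U).f V = (α_ _ _ _).hom ≫ (Uᘁ : C) ◁ ((α_ _ _ _).hom ≫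
    ρ.f (U ⊗ V) ≫ (α_ _ _ _).hom) ≫ (α_ _ _ _).inv ≫ ε_ U (Uᘁ) ▷ (V ⊗ W) ≫ (λ_ _).hom := rfl

variable (hu : ∀ (Y : C) (f : NatFam Y W), ∃ y : Y ⟶ R, ∀ V, y ▷ V ≫ ρ.f V = f.f V)

/-- The half-braiding of the cofree object. -/
def gam (U : C) : R ⊗ U ⟶ U ⊗ R :=
  tensorLeftHomEquiv (R ⊗ U) U (Uᘁ) R (hu _ (famU ρ U)).choose

theorem gam_key (U V : C) : gam ρ hu U ▷ V ≫ (α_ U R V).hom ≫ U ◁ ρ.f V =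
    (α_ R U V).hom ≫ ρ.f (U ⊗ V) ≫ (α_ U V W).hom := by
  set t := (hu _ (famU ρ U)).choose with ht
  have h1 : t ▷ V ≫ ρ.f V = (famU ρ U).f V := (hu _ (famU ρ U)).choose_spec V
  have h2 : gam ρ hu U = (λ_ _).inv ≫ η_ U (Uᘁ) ▷ (R ⊗ U) ≫ (α_ _ _ _).hom ≫ U ◁ t := by
    simp [gam, tensorLeftHomEquiv, ht]
  rw [h2]
  calc ((λ_ _).inv ≫ η_ U (Uᘁ) ▷ (R ⊗ U) ≫ (α_ _ _ _).hom ≫ U ◁ t) ▷ V ≫ (α_ U R V).hom ≫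
          U ◁ ρ.f V
      = 𝟙 _ ⊗≫ η_ U (Uᘁ) ▷ (R ⊗ U ⊗ V) ⊗≫ U ◁ (t ▷ V ≫ ρ.f V) ⊗≫ 𝟙 _ := by monoidal
    _ = 𝟙 _ ⊗≫ (η_ U (Uᘁ) ▷ (R ⊗ U ⊗ V) ≫ (U ⊗ Uᘁ) ◁ ((ρ.f (U ⊗ V)) ≫ (α_ _ _ _).hom)) ⊗≫
          U ◁ (ε_ U (Uᘁ) ▷ (V ⊗ W)) ⊗≫ 𝟙 _ := by
        rw [h1, famU_f]
        monoidal
    _ = 𝟙 _ ⊗≫ ρ.f (U ⊗ V) ⊗≫ (η_ U (Uᘁ) ▷ U ≫ (α_ _ _ _).hom ≫ U ◁ ε_ U (Uᘁ)) ▷ (V ⊗ W) ⊗≫
          𝟙 _ := by rw [← whisker_exchange]; monoidal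
    _ = _ := by rw [ExactPairing.evaluation_coevaluation]; monoidal

variable (hρ : ρ.Faithful)

include hρ in
theorem gam_nat {U U' : C} (h : U ⟶ U') :
    R ◁ h ≫ gam ρ hu U' = gam ρ hu U ≫ h ▷ R := by
  refine uniq ρ hρ _ _ fun V => ?_
  have e := ρ.nat (h ▷ V)
  calc (R ◁ h ≫ gam ρ hu U') ▷ V ≫ (α_ U' R V).hom ≫ U' ◁ ρ.f V
      = (R ◁ h) ▷ V ≫ (gam ρ hu U' ▷ V ≫ (α_ U' R V).hom ≫ U' ◁ ρ.f V) := by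
        rw [MonoidalCategory.comp_whiskerRight, Category.assoc]
    _ = 𝟙 _ ⊗≫ (R ◁ (h ▷ V) ≫ ρ.f (U' ⊗ V)) ⊗≫ 𝟙 _ := by rw [gam_key]; monoidal
    _ = (gam ρ hu U ▷ V ≫ (α_ U R V).hom ≫ U ◁ ρ.f V) ≫ h ▷ (V ⊗ W) := by
        rw [e, gam_key]; monoidal
    _ = 𝟙 _ ⊗≫ gam ρ hu U ▷ V ⊗≫ (U ◁ ρ.f V ≫ h ▷ (V ⊗ W)) := by monoidal
    _ = _ := by rw [whisker_exchange]; monoidal

include hρ in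
theorem gam_mon (U U' : C) : gam ρ hu (U ⊗ U') =
    (α_ _ _ _).inv ≫ (gam ρ hu U ▷ U') ≫ (α_ _ _ _).hom ≫ (U ◁ gam ρ hu U') ≫
      (α_ _ _ _).inv := by
  refine uniq ρ hρ _ _ fun V => ?_
  have e := ρ.nat (α_ U U' V).hom
  symm
  calc ((α_ _ _ _).inv ≫ (gam ρ hu U ▷ U') ≫ (α_ _ _ _).hom ≫ (U ◁ gam ρ hu U') ≫
          (α_ _ _ _).inv) ▷ V ≫ (α_ (U ⊗ U') R V).hom ≫ (U ⊗ U') ◁ ρ.f V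
      = 𝟙 _ ⊗≫ gam ρ hu U ▷ (U' ⊗ V) ⊗≫ U ◁ (gam ρ hu U' ▷ V ≫ (α_ U' R V).hom ≫
          U' ◁ ρ.f V) ⊗≫ 𝟙 _ := by monoidal
    _ = 𝟙 _ ⊗≫ (gam ρ hu U ▷ (U' ⊗ V) ≫ (α_ _ _ _).hom ≫ U ◁ ρ.f (U' ⊗ V)) ⊗≫ 𝟙 _ := by
        rw [gam_key]; monoidal
    _ = 𝟙 _ ⊗≫ (R ◁ (α_ U U' V).hom ≫ ρ.f (U ⊗ (U' ⊗ V))) ⊗≫ 𝟙 _ := by
        rw [gam_key]; monoidal
    _ = 𝟙 _ ⊗≫ ((α_ _ _ _).hom ≫ ρ.f ((U ⊗ U') ⊗ V) ≫ (α_ _ _ _).hom) ⊗≫ 𝟙 _ := by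
        rw [e]; monoidal
    _ = _ := by rw [← gam_key ρ hu]; monoidal

include hρ in
theorem gam_unit : gam ρ hu (𝟙_ C) = (ρ_ R).hom ≫ (λ_ R).inv := by
  refine uniq ρ hρ _ _ fun V => ?_
  have e := ρ.nat (λ_ V).hom
  rw [gam_key]
  calc (α_ R (𝟙_ C) V).hom ≫ ρ.f (𝟙_ C ⊗ V) ≫ (α_ (𝟙_ C) V W).hom
      = 𝟙 _ ⊗≫ (ρ.f (𝟙_ C ⊗ V) ≫ (λ_ V).hom ▷ W) ⊗≫ 𝟙 _ := by monoidal
    _ = _ := by rw [← e]; monoidal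

/-- The cofree object of the center. -/
def cofree : Center C :=
  ⟨R, { β := fun U => ⟨gam ρ hu U, laxInv (gam ρ hu) U,
          lax_hom_inv (gam ρ hu) (gam_nat ρ hu hρ) (gam_mon ρ hu hρ) (gam_unit ρ hu hρ) U,
          lax_inv_hom (gam ρ hu) (gam_nat ρ hu hρ) (gam_mon ρ hu hρ) (gam_unit ρ hu hρ) U⟩
        monoidal := gam_mon ρ hu hρ
        naturality := gam_nat ρ hu hρ }⟩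

/-- The counit. -/
def om : R ⟶ W := (ρ_ R).inv ≫ ρ.f (𝟙_ C) ≫ (λ_ W).hom

theorem fam_eq (U : C) : ρ.f U = gam ρ hu U ≫ U ◁ om ρ := by
  have h1 := gam_key ρ hu U (𝟙_ C)
  have e := ρ.nat (ρ_ U).hom
  have h2 : ρ.f U = (R ◁ (ρ_ U).inv) ≫ ρ.f (U ⊗ 𝟙_ C) ≫ (ρ_ U).hom ▷ W := by
    rw [← e]; simp
  calc ρ.f U = 𝟙 _ ⊗≫ ((α_ R U (𝟙_ C)).hom ≫ ρ.f (U ⊗ 𝟙_ C) ≫ (α_ U (𝟙_ C) W).hom) ⊗≫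
        𝟙 _ := by rw [h2]; monoidal
    _ = 𝟙 _ ⊗≫ (gam ρ hu U ▷ (𝟙_ C) ≫ (α_ U R (𝟙_ C)).hom ≫ U ◁ ρ.f (𝟙_ C)) ⊗≫ 𝟙 _ := by
        rw [h1]
    _ = _ := by rw [om]; monoidal

end

/-- Cofree objects: every natural family `Y ⊗ V ⟶ V ⊗ W` comes from the half-braiding of one
object of the center; if the family is faithful, the map from `Y` is mono. -/
theorem exists_cofree (hC : FinCat k C) (W : C) :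
    ∃ (N : Center C) (ω : N.1 ⟶ W), ∀ (Y : C) (f : NatFam Y W), ∃ y : Y ⟶ N.1,
      (∀ V, f.f V = y ▷ V ≫ (N.2.β V).hom ≫ V ◁ ω) ∧ (f.Faithful → Mono y) := by
  obtain ⟨R, ρ, hρ, hu⟩ := exists_univ hC W
  refine ⟨cofree ρ hu hρ, om ρ, fun Y f => ?_⟩
  obtain ⟨y, hy⟩ := hu Y f
  refine ⟨y, fun V => ?_, fun hf => ?_⟩
  · rw [← hy V, fam_eq ρ hu V]
    rfl
  · refine Preadditive.mono_of_cancel_zero _ fun {Y'} v hv => hf _ v fun V => ?_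
    have hv' : v ≫ y = 0 := hv
    rw [← hy V, ← Category.assoc, ← MonoidalCategory.comp_whiskerRight, hv',
      MonoidalPreadditive.zero_whiskerRight, zero_comp]

end Pool.Agent.NDC
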