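import Pool.Agent.NDC.NDC
import Pool.Agent.MUG.JB
import Pool.Agent.MUG.ThmQ

/-! # The FGC theorems for the Drinfeld center of an arbitrary finite tensor category
(row NDC, helper40) -/

open CategoryTheory MonoidalCategory Limits Abelian

universe w w' v u

set_option backward.isDefEq.respectTransparency.types false

attribute [local instance] CategoryTheory.Abelian.hasFiniteBiproducts

namespace Pool.Agent.NDC

open MUG

variable {k : Type*} [Field k] [IsAlgClosed k] {C : Type u} [Category.{v} C] [Abelian C]
  [Linear k C] [MonoidalCategory C] [MonoidalPreadditive C] [MonoidalLinear k C]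
  [RigidCategory C]

/-- Tensor subcategories of the Drinfeld center with semisimple Mueger centre. -/
theorem semisimpleCentre_center [HasExt.{w} (Center C)] (hC : IsFinite k C)
    (hF : FGC.{w} k (Center C)) (D : ObjectProperty (Center C)) [TensorSub D]
    (hss : SplitsEpis (D ⊓ centralizer D))
    (hdim : CharZero k ∨ DimNeZero k (D ⊓ centralizer D)) [HasExt.{w'} D.FullSubcategory] :
    FGC.{w'} k D.FullSubcategory :=
  theoremN_dim (center_isFinite_gen hC) hF D hss hdim

/-- Tensor subcategories of the Drinfeld center whose Mueger centre extends the unit only by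
invertible objects. -/
theorem invertibleExtensions_center [CharZero k] [HasExt.{w} (Center C)] (hC : IsFinite k C)
    (hF : FGC.{w} k (Center C)) (D : ObjectProperty (Center C)) [TensorSub D]
    (hD : ∀ (V U : Center C) (i : 𝟙_ (Center C) ⟶ U) (p : U ⟶ V) (w : i ≫ p = 0),
      (D ⊓ centralizer D) V → (D ⊓ centralizer D) U → Simple V →
      (ShortComplex.mk i p w).ShortExact → (¬ ∃ s : V ⟶ U, s ≫ p = 𝟙 V) → Invertible V)
    [HasExt.{w'} D.FullSubcategory] :
    FGC.{w'} k D.FullSubcategory :=
  theoremP_ext (center_isFinite_gen hC) (center_nondegenerate hC) hF D hD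

/-- Centralizers in the Drinfeld center of classes with invertible composition factors. -/
theorem invertibleFactors_center [CharZero k] [HasExt.{w} (Center C)] (hC : IsFinite k C)
    (hF : FGC.{w} k (Center C)) (B : ObjectProperty (Center C))
    (hB : ∀ V, B V → ∀ S, Simple S → IsSubquotient S V → Invertible S)
    [HasExt.{w'} (centralizer B).FullSubcategory] :
    FGC.{w'} k (centralizer B).FullSubcategory :=
  theoremQ_fgc (center_isFinite_gen hC) hF B hB

end Pool.Agent.NDC
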