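import Pool.Agent.MUG.Mult

/-! # The Nakayama object (row NDC, helper40)

For a projective object `P` of a finite category there is an object `I` with
`Hom(V, I) = Hom(P, V)^*`, naturally in `V`. -/

open CategoryTheory Limits ZeroObject

universe v u

set_option linter.unusedSectionVars false

namespace Pool.Agent.NDC

open MUG

section

variable {k : Type*} [Field k] {C : Type u} [Category.{v} C] [Abelian C] [Linear k C]

/-- A linear functional on `Hom(P, V)` which does not vanish on any nonzero subobject. -/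
def Sep (P V : C) (ξ : (P ⟶ V) →ₗ[k] k) : Prop :=
  ∀ (K : C) (i : K ⟶ V), Mono i → (∀ g : P ⟶ K, ξ (g ≫ i) = 0) → IsZero K

theorem Sep.eq_zero {P V : C} [Projective P] {ξ : (P ⟶ V) →ₗ[k] k} (h : Sep P V ξ) {W : C}
    (u : W ⟶ V) (hu : ∀ g : P ⟶ W, ξ (g ≫ u) = 0) : u = 0 := by
  have h1 : IsZero (Abelian.image u) := by
    refine h _ (Abelian.image.ι u) inferInstance fun g => ?_
    have h2 : g = Projective.factorThru g (Abelian.factorThruImage u) ≫
      Abelian.factorThruImage u := (Projective.factorThru_comp _ _).symm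
    rw [h2, Category.assoc, Abelian.image.fac]
    exact hu _
  rw [← Abelian.image.fac u, h1.eq_of_tgt (Abelian.factorThruImage u) 0, zero_comp]

theorem Sep.finrank_le (hC : FinCat k C) {P V : C} [Projective P] {ξ : (P ⟶ V) →ₗ[k] k}
    (h : Sep P V ξ) (W : C) : Module.finrank k (W ⟶ V) ≤ Module.finrank k (P ⟶ W) := by
  have := hC.hom_finite P W
  have := hC.hom_finite W V
  let Φ : (W ⟶ V) →ₗ[k] Module.Dual k (P ⟶ W) :=
    { toFun := fun u => ξ.comp (Linear.rightComp k P u)
      map_add' := fun u v => by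
        ext g
        change ξ (g ≫ (u + v)) = ξ (g ≫ u) + ξ (g ≫ v)
        rw [Preadditive.comp_add, map_add]
      map_smul' := fun a u => by
        ext g
        change ξ (g ≫ (a • u)) = a • ξ (g ≫ u)
        rw [Linear.comp_smul, map_smul] }
  have hinj : Function.Injective Φ := by
    rw [injective_iff_map_eq_zero]
    intro u hu
    exact h.eq_zero u fun g => LinearMap.congr_fun hu g
  have h1 := LinearMap.finrank_le_finrank_of_injective hinj
  rwa [Subspace.dual_finrank_eq] at h1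

/-- The Nakayama object. -/
theorem exists_nak (hC : FinCat k C) (P : C) [Projective P] :
    ∃ (I : C) (ξ : (P ⟶ I) →ₗ[k] k), ∀ (V : C) (f : (P ⟶ V) →ₗ[k] k),
      ∃! u : V ⟶ I, ∀ g : P ⟶ V, ξ (g ≫ u) = f g := by
  classical
  obtain ⟨F⟩ := exists_fam hC
  let S : Set ℕ := {n | ∃ (V : C) (ξ : (P ⟶ V) →ₗ[k] k), Sep P V ξ ∧ F.len k V = n}
  have hbdd : ∀ n ∈ S, n ≤ ∑ i, Module.finrank k (P ⟶ F.P i) := by
    rintro n ⟨V, ξ, hξ, rfl⟩
    exact Finset.sum_le_sum fun i _ => hξ.finrank_le hC (F.P i)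
  have hne : S.Nonempty := by
    refine ⟨_, (0 : C), 0, fun K i hi _ => ?_, rfl⟩
    rw [IsZero.iff_id_eq_zero, ← cancel_mono i]
    exact (isZero_zero C).eq_of_tgt _ _
  have hB : BddAbove S := ⟨_, fun n hn => hbdd n hn⟩
  obtain ⟨I, ξ, hξ, hlen⟩ : sSup S ∈ S := Nat.sSup_mem hne hB
  refine ⟨I, ξ, fun V f => ?_⟩
  let Fn : (P ⟶ V ⊞ I) →ₗ[k] k :=
    f.comp (Linear.rightComp k P (biprod.fst : V ⊞ I ⟶ V)) +
      ξ.comp (Linear.rightComp k P (biprod.snd : V ⊞ I ⟶ I))
  have hFn : ∀ h, Fn h = f (h ≫ biprod.fst) + ξ (h ≫ biprod.snd) := fun h => rfl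
  have hex : ∃ n : ℕ, ∃ (Q : C) (p : V ⊞ I ⟶ Q) (q : (P ⟶ Q) →ₗ[k] k), Epi p ∧
      (∀ h, q (h ≫ p) = Fn h) ∧ F.len k Q = n :=
    ⟨_, V ⊞ I, 𝟙 _, Fn, inferInstance, fun h => by rw [Category.comp_id], rfl⟩
  obtain ⟨Q, p, q, hp, hq, hn⟩ := Nat.find_spec hex
  have hsep : Sep P Q q := by
    intro K i hi hK
    let π := cokernel.π i
    have hsurj : Function.Surjective (Linear.rightComp k P π) := fun u =>
      ⟨Projective.factorThru u π, Projective.factorThru_comp u π⟩
    obtain ⟨s, hs⟩ := LinearMap.exists_rightInverse_of_surjective (Linear.rightComp k P π)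
      (LinearMap.range_eq_top.2 hsurj)
    have hq' : ∀ h : P ⟶ Q, (q.comp s) (h ≫ π) = q h := by
      intro h
      have h1 : (s (h ≫ π) - h) ≫ π = 0 := by
        have h2 : s (h ≫ π) ≫ π = h ≫ π := LinearMap.congr_fun hs (h ≫ π)
        rw [Preadditive.sub_comp, h2, sub_self]
      have h3 := (Fam.ses_mono i).exact
      have h4 : h3.lift (s (h ≫ π) - h) h1 ≫ i = s (h ≫ π) - h := h3.lift_f _ h1
      have h5 := hK (h3.lift (s (h ≫ π) - h) h1)
      rw [h4, map_sub, sub_eq_zero] at h5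
      exact h5
    have hmin := Nat.find_min' hex (m := F.len k (cokernel i)) ⟨cokernel i, p ≫ π, q.comp s,
      epi_comp _ _, fun h => by rw [← Category.assoc, hq', hq], rfl⟩
    have h6 := F.len_add hC (Fam.ses_mono i)
    simp only at h6
    rw [← F.len_eq_zero_iff (k := k) hC]
    omega
  have hmax : F.len k Q ≤ F.len k I := by
    rw [hlen]
    exact le_csSup hB ⟨Q, q, hsep, rfl⟩
  let j : I ⟶ Q := biprod.inr ≫ p
  have hj : ∀ h : P ⟶ I, q (h ≫ j) = ξ h := by
    intro h
    have h1 : h ≫ j = (h ≫ biprod.inr) ≫ p := (Category.assoc _ _ _).symm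
    rw [h1, hq, hFn, Category.assoc, Category.assoc, biprod.inr_fst, biprod.inr_snd, comp_zero,
      Category.comp_id, map_zero, zero_add]
  have hmono : Mono j := by
    have h1 : IsZero (kernel j) := by
      refine hξ _ (kernel.ι j) inferInstance fun g => ?_
      rw [← hj, Category.assoc, kernel.condition, comp_zero, map_zero]
    exact Preadditive.mono_of_kernel_zero (h1.eq_of_src _ _)
  have hiso : IsIso j := by
    have h1 := F.len_add hC (Fam.ses_mono j)
    simp only at h1
    have h2 : IsZero (cokernel j) := by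
      rw [← F.len_eq_zero_iff (k := k) hC]
      omega
    have : Epi j := Abelian.epi_of_cokernel_π_eq_zero j (h2.eq_of_tgt _ _)
    exact isIso_of_mono_of_epi j
  have key : ∀ g : P ⟶ V, ξ (g ≫ (biprod.inl ≫ p ≫ inv j)) = f g := by
    intro g
    rw [← hj]
    have h1 : (g ≫ biprod.inl ≫ p ≫ inv j) ≫ j = (g ≫ biprod.inl) ≫ p := by
      simp only [Category.assoc, IsIso.inv_hom_id, Category.comp_id]
    rw [h1, hq, hFn, Category.assoc, Category.assoc, biprod.inl_fst, biprod.inl_snd, comp_zero,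
      Category.comp_id, map_zero, add_zero]
  refine ⟨_, key, fun u hu => ?_⟩
  rw [← sub_eq_zero]
  refine hξ.eq_zero _ fun g => ?_
  rw [Preadditive.comp_sub, map_sub, key, hu, sub_self]

end

end Pool.Agent.NDC
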