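import Pool.Agent.NDC.Nak
import Pool.Agent.MUG.CenAb

/-! # Natural families (row NDC, helper40)

Natural families `Y ⊗ V ⟶ V ⊗ W`, the families built from the Nakayama object, and the
independence lemma for maps from the unit object. -/

open CategoryTheory MonoidalCategory Limits

universe v u

set_option linter.unusedSectionVars false

noncomputable section

namespace Pool.Agent.NDC

open MUG

section NakDef

variable (k : Type*) [Field k] {C : Type u} [Category.{v} C] [Abelian C] [Linear k C]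

/-- The Nakayama object of `P` as a structure. -/
structure Nak (P : C) where
  I : C
  ξ : (P ⟶ I) →ₗ[k] k
  θ : ∀ {V : C}, ((P ⟶ V) →ₗ[k] k) → (V ⟶ I)
  hθ : ∀ {V : C} (f : (P ⟶ V) →ₗ[k] k) (g : P ⟶ V), ξ (g ≫ θ f) = f g
  ext : ∀ {V : C} (u u' : V ⟶ I), (∀ g : P ⟶ V, ξ (g ≫ u) = ξ (g ≫ u')) → u = u'

variable {k}

theorem exists_Nak (hC : FinCat k C) (P : C) [Projective P] : Nonempty (Nak k P) := by
  obtain ⟨I, ξ, h⟩ := exists_nak hC P
  refine ⟨⟨I, ξ, fun {V} f => (h V f).choose, fun {V} f g => (h V f).choose_spec.1 g,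
    fun {V} u u' huu' => ?_⟩⟩
  obtain ⟨w, hw, hw'⟩ := h V (ξ.comp (Linear.rightComp k P u))
  rw [hw' u fun g => rfl, hw' u' fun g => (huu' g).symm]

namespace Nak

variable {P : C} (N : Nak k P)

theorem θ_smul {V : C} (a : k) (f : (P ⟶ V) →ₗ[k] k) : N.θ (a • f) = a • N.θ f := by
  refine N.ext _ _ fun g => ?_
  rw [N.hθ, Linear.comp_smul, map_smul, N.hθ]
  rfl

theorem θ_sum {V : C} {ι : Type*} (s : Finset ι) (f : ι → ((P ⟶ V) →ₗ[k] k)) :
    N.θ (∑ i ∈ s, f i) = ∑ i ∈ s, N.θ (f i) := by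
  refine N.ext _ _ fun g => ?_
  rw [N.hθ, Preadditive.comp_sum, map_sum, LinearMap.sum_apply]
  exact Finset.sum_congr rfl fun i _ => (N.hθ _ _).symm

theorem θ_inj {V : C} {f : (P ⟶ V) →ₗ[k] k} (h : N.θ f = 0) : f = 0 := by
  ext g
  rw [← N.hθ f g, h, comp_zero, map_zero]
  rfl

end Nak

end NakDef

section Family

variable {k : Type*} [Field k] {C : Type u} [Category.{v} C] [Abelian C] [Linear k C]
  [MonoidalCategory C] [MonoidalPreadditive C] [MonoidalLinear k C]

/-- A natural family `Y ⊗ V ⟶ V ⊗ W`. -/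
structure NatFam (Y W : C) where
  f : ∀ V : C, Y ⊗ V ⟶ V ⊗ W
  nat : ∀ {V V' : C} (h : V ⟶ V'), Y ◁ h ≫ f V' = f V ≫ h ▷ W

/-- A basis of `Hom(P, V)`. -/
def bas (hC : FinCat k C) (P V : C) : Module.Basis (Fin (Module.finrank k (P ⟶ V))) k (P ⟶ V) :=
  haveI := hC.hom_finite P V
  Module.finBasis k (P ⟶ V)

/-- The natural family of the Nakayama object. -/
def phi (hC : FinCat k C) {P : C} (N : Nak k P) {Y W : C} (c : Y ⊗ N.I ⟶ P ⊗ W) (V : C) :
    Y ⊗ V ⟶ V ⊗ W :=
  ∑ i, Y ◁ N.θ ((bas hC P V).coord i) ≫ c ≫ (bas hC P V i) ▷ W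

theorem phi_nat (hC : FinCat k C) {P : C} (N : Nak k P) {Y W : C} (c : Y ⊗ N.I ⟶ P ⊗ W)
    {V V' : C} (h : V ⟶ V') : Y ◁ h ≫ phi hC N c V' = phi hC N c V ≫ h ▷ W := by
  set b := bas hC P V with hb
  set b' := bas hC P V' with hb'
  have h1 : ∀ j, h ≫ N.θ (b'.coord j) = ∑ i, (b'.coord j (b i ≫ h)) • N.θ (b.coord i) := by
    intro j
    refine N.ext _ _ fun g => ?_
    have h2 : N.ξ (g ≫ h ≫ N.θ (b'.coord j)) = b'.coord j (g ≫ h) := by
      rw [← Category.assoc, N.hθ]
    have h3 : g ≫ h = ∑ i, (b.coord i g) • (b i ≫ h) := by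
      conv_lhs => rw [← b.sum_repr g]
      rw [Preadditive.sum_comp]
      exact Finset.sum_congr rfl fun i _ => by rw [Linear.smul_comp]; rfl
    rw [h2, h3, map_sum, Preadditive.comp_sum, map_sum]
    refine Finset.sum_congr rfl fun i _ => ?_
    rw [map_smul, Linear.comp_smul, map_smul, N.hθ, smul_eq_mul, smul_eq_mul, mul_comm]
  have h4 : ∀ i, b i ≫ h = ∑ j, (b'.coord j (b i ≫ h)) • b' j := by
    intro i
    conv_lhs => rw [← b'.sum_repr (b i ≫ h)]
    rfl
  have e1 : Y ◁ h ≫ phi hC N c V' = ∑ j, ∑ i, (b'.coord j (b i ≫ h)) •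
      (Y ◁ N.θ (b.coord i) ≫ c ≫ (b' j) ▷ W) := by
    rw [phi, Preadditive.comp_sum]
    refine Finset.sum_congr rfl fun j _ => ?_
    rw [← MonoidalCategory.whiskerLeft_comp_assoc, ← hb', h1 j,
      whiskerLeft_sum, Preadditive.sum_comp]
    refine Finset.sum_congr rfl fun i _ => ?_
    rw [MonoidalLinear.whiskerLeft_smul, Linear.smul_comp]
  have e2 : phi hC N c V ≫ h ▷ W = ∑ i, ∑ j, (b'.coord j (b i ≫ h)) •
      (Y ◁ N.θ (b.coord i) ≫ c ≫ (b' j) ▷ W) := by
    rw [phi, Preadditive.sum_comp]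
    refine Finset.sum_congr rfl fun i _ => ?_
    rw [Category.assoc, Category.assoc, ← MonoidalCategory.comp_whiskerRight, ← hb]
    conv_lhs => rw [h4 i]
    rw [sum_whiskerRight, Preadditive.comp_sum, Preadditive.comp_sum]
    refine Finset.sum_congr rfl fun j _ => ?_
    rw [MonoidalLinear.smul_whiskerRight, Linear.comp_smul, Linear.comp_smul]
  rw [e1, e2, Finset.sum_comm]

/-- The natural family. -/
def phiFam (hC : FinCat k C) {P : C} (N : Nak k P) {Y W : C} (c : Y ⊗ N.I ⟶ P ⊗ W) :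
    NatFam Y W := ⟨phi hC N c, fun h => phi_nat hC N c h⟩

end Family

section Indep

variable {k : Type*} [Field k] [IsAlgClosed k] {C : Type u} [Category.{v} C] [Abelian C]
  [Linear k C] [MonoidalCategory C] [MonoidalPreadditive C] [MonoidalLinear k C]
  [RigidCategory C]

/-- Independence: if the `t i : 𝟙_ ⟶ T` are linearly independent and `∑ t i ⊗ w i = 0`, then
all `w i` are zero. -/
theorem indep (hfin : ∀ X Y : C, Module.Finite k (X ⟶ Y)) (h1 : Simple (𝟙_ C)) {A B : C} :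
    ∀ (n : ℕ) {T : C} (t : Fin n → (𝟙_ C ⟶ T)) (w : Fin n → (A ⟶ B)),
      LinearIndependent k t → ∑ i, (t i ⊗ₘ w i) = 0 → ∀ i, w i = 0 := by
  intro n
  induction n with
  | zero => exact fun {T} t w _ _ i => Fin.elim0 i
  | succ n ih =>
    intro T t w ht hs
    have ht0 : t 0 ≠ 0 := ht.ne_zero 0
    have hmono : Mono (t 0) := mono_of_nonzero_from_simple ht0
    let π := cokernel.π (t 0)
    have hind : LinearIndependent k (fun i : Fin n => t i.succ ≫ π) := by
      rw [Fintype.linearIndependent_iff]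
      intro a ha
      have h2 : (∑ i, a i • t i.succ) ≫ π = 0 := by
        rw [Preadditive.sum_comp, ← ha]
        exact Finset.sum_congr rfl fun i _ => Linear.smul_comp _ _ _ _ _ _
      have h3 := (Fam.ses_mono (t 0)).exact
      have h4 : h3.lift (∑ i, a i • t i.succ) h2 ≫ t 0 = ∑ i, a i • t i.succ := h3.lift_f _ h2
      have := hfin (𝟙_ C) (𝟙_ C)
      obtain ⟨c, hc⟩ := endomorphism_simple_eq_smul_id k (h3.lift (∑ i, a i • t i.succ) h2)
      rw [← hc, Linear.smul_comp, Category.id_comp] at h4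
      rw [Fintype.linearIndependent_iff] at ht
      have h5 := ht (Fin.cons (-c) a) (by
        rw [Fin.sum_univ_succ]
        simp only [Fin.cons_zero, Fin.cons_succ]
        rw [← h4, neg_smul, neg_add_cancel])
      intro i
      have h6 := h5 i.succ
      rwa [Fin.cons_succ] at h6
    have hs' : ∑ i : Fin n, ((t i.succ ≫ π) ⊗ₘ w i.succ) = 0 := by
      have h2 : (∑ i, (t i ⊗ₘ w i)) ≫ (π ▷ B) = 0 := by rw [hs, zero_comp]
      rw [Fin.sum_univ_succ, Preadditive.add_comp, Preadditive.sum_comp] at h2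
      have h3 : (t 0 ⊗ₘ w 0) ≫ (π ▷ B) = 0 := by
        rw [MonoidalCategory.tensorHom_def', Category.assoc,
          ← MonoidalCategory.comp_whiskerRight, cokernel.condition,
          MonoidalPreadditive.zero_whiskerRight, comp_zero]
      rw [h3, zero_add] at h2
      rw [← h2]
      refine Finset.sum_congr rfl fun i _ => ?_
      rw [MonoidalCategory.tensorHom_def', MonoidalCategory.tensorHom_def', Category.assoc,
        MonoidalCategory.comp_whiskerRight]
    have hw := ih (fun i => t i.succ ≫ π) (fun i => w i.succ) hind hs'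
    rw [Fin.sum_univ_succ] at hs
    have h6 : ∑ i : Fin n, (t i.succ ⊗ₘ w i.succ) = 0 := by
      refine Finset.sum_eq_zero fun i _ => ?_
      rw [hw i, MonoidalPreadditive.tensor_zero]
    rw [h6, add_zero, MonoidalCategory.tensorHom_def'] at hs
    have h7 : (𝟙_ C) ◁ w 0 = 0 := by
      rw [← cancel_mono (t 0 ▷ B), hs, zero_comp]
    have h8 : w 0 = 0 := by
      have h9 := MonoidalCategory.id_whiskerLeft (w 0)
      rw [h7] at h9
      have h10 : (λ_ A).hom ≫ w 0 ≫ (λ_ B).inv = 0 := h9.symm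
      rw [← cancel_epi (λ_ A).hom, ← cancel_mono (λ_ B).inv, Category.assoc, h10]
      simp
    intro i
    refine Fin.cases h8 (fun j => hw j) i

end Indep

end Pool.Agent.NDC
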