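import Pool.Agent.NDC.Phi2
import Pool.Agent.MUG.CF2
import Pool.Agent.MUG.GenN

/-! # The universal natural family (row NDC, helper40) -/

open CategoryTheory MonoidalCategory Limits ZeroObject

universe v u

set_option linter.unusedSectionVars false

noncomputable section

namespace Pool.Agent.NDC

open MUG

variable {k : Type*} [Field k] {C : Type u} [Category.{v} C] [Abelian C]
  [Linear k C] [MonoidalCategory C] [MonoidalPreadditive C] [RigidCategory C]

namespace NatFam

variable {Y W : C}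

/-- A natural family is faithful if no nonzero map to the source kills it. -/
def Faithful (f : NatFam Y W) : Prop :=
  ∀ (Y' : C) (v : Y' ⟶ Y), (∀ V, v ▷ V ≫ f.f V = 0) → v = 0

/-- The mate at `Q`. -/
def mate (f : NatFam Y W) (Q : C) : Y ⟶ (Q ⊗ W) ⊗ Qᘁ :=
  tensorRightHomEquiv Y Q (Qᘁ) (Q ⊗ W) (f.f Q)

theorem mate_zero_iff {Q : C}
    (hQ : ∀ {V W : C} (g : V ⟶ W), (∀ f : Q ⟶ V, f ≫ g = 0) → g = 0)
    (f : NatFam Y W) {Y' : C} (v : Y' ⟶ Y) :
    v ≫ f.mate Q = 0 ↔ ∀ V, v ▷ V ≫ f.f V = 0 := by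
  have h1 : v ≫ f.mate Q = tensorRightHomEquiv Y' Q (Qᘁ) (Q ⊗ W) (v ▷ Q ≫ f.f Q) := by
    apply (tensorRightHomEquiv Y' Q (Qᘁ) (Q ⊗ W)).symm.injective
    rw [tensorRightHomEquiv_symm_naturality, Equiv.symm_apply_apply, mate,
      Equiv.symm_apply_apply]
  rw [h1, Gen.right_zero_iff]
  constructor
  · intro h V
    refine GenN.lk_zero hQ _ fun g => ?_
    rw [whisker_exchange_assoc, f.nat, ← Category.assoc, h, zero_comp]
  · exact fun h => h Q

theorem Faithful.mono {Q : C}
    (hQ : ∀ {V W : C} (g : V ⟶ W), (∀ f : Q ⟶ V, f ≫ g = 0) → g = 0)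
    {f : NatFam Y W} (hf : f.Faithful) : Mono (f.mate Q) :=
  Preadditive.mono_of_cancel_zero _ fun v hv => hf _ v ((mate_zero_iff hQ f v).1 hv)

end NatFam

/-- Exactness of the tensor product on the right. -/
def descWhisker {K X M Z' : C} (κ : K ⟶ X) (p : X ⟶ M) [Epi p] (w : κ ≫ p = 0)
    (hex : (ShortComplex.mk κ p w).Exact) (V : C) (F : X ⊗ V ⟶ Z') (hF : κ ▷ V ≫ F = 0) :
    { G : M ⊗ V ⟶ Z' // p ▷ V ≫ G = F } := by
  have h1 : ((ShortComplex.mk κ p w).map (tensorRight V)).Exact := hex.map (tensorRight V)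
  have h2 : Epi ((ShortComplex.mk κ p w).map (tensorRight V)).g :=
    inferInstanceAs (Epi (p ▷ V))
  exact ⟨h1.desc F hF, h1.g_desc F hF⟩

theorem exists_univ (hC : FinCat k C) (W : C) :
    ∃ (R : C) (ρ : NatFam R W), ρ.Faithful ∧
      ∀ (Y : C) (f : NatFam Y W), ∃ y : Y ⟶ R, ∀ V, y ▷ V ≫ ρ.f V = f.f V := by
  classical
  obtain ⟨F⟩ := exists_fam hC
  obtain ⟨Q, hQp, hQ⟩ := Gen.exists_separator hC
  let S : Set ℕ := {n | ∃ (Y : C) (f : NatFam Y W), f.Faithful ∧ F.len k Y = n}
  have hbdd : ∀ n ∈ S, n ≤ F.len k ((Q ⊗ W) ⊗ Qᘁ) := by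
    rintro n ⟨Y, f, hf, rfl⟩
    have := hf.mono hQ
    exact F.len_mono hC (f.mate Q)
  have hne : S.Nonempty := by
    refine ⟨_, (0 : C), ⟨fun V => 0, fun h => by simp⟩, fun Y' v _ => ?_, rfl⟩
    exact (isZero_zero C).eq_of_tgt _ _
  have hB : BddAbove S := ⟨_, fun n hn => hbdd n hn⟩
  obtain ⟨R, ρ, hρ, hlen⟩ : sSup S ∈ S := Nat.sSup_mem hne hB
  refine ⟨R, ρ, hρ, fun Y f => ?_⟩
  -- the sum family
  let G : NatFam (Y ⊞ R) W :=
    { f := fun V => (biprod.fst : Y ⊞ R ⟶ Y) ▷ V ≫ f.f V + (biprod.snd : Y ⊞ R ⟶ R) ▷ V ≫ ρ.f V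
      nat := fun {V V'} h => by
        rw [Preadditive.comp_add, Preadditive.add_comp, whisker_exchange_assoc, f.nat,
          whisker_exchange_assoc, ρ.nat, Category.assoc, Category.assoc] }
  let m := G.mate Q
  let p := Abelian.factorThruImage m
  let M := Abelian.image m
  let κ := kernel.ι p
  have hκ : ∀ V, κ ▷ V ≫ G.f V = 0 := by
    rw [← NatFam.mate_zero_iff hQ]
    have h1 : p ≫ Abelian.image.ι m = m := Abelian.image.fac m
    calc κ ≫ m = κ ≫ p ≫ Abelian.image.ι m := by rw [h1]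
      _ = 0 := by rw [← Category.assoc, kernel.condition, zero_comp]
  have hex : (ShortComplex.mk κ p (kernel.condition p)).Exact := ShortComplex.exact_kernel p
  let H : NatFam M W :=
    { f := fun V => (descWhisker κ p (kernel.condition p) hex V (G.f V) (hκ V)).1
      nat := fun {V V'} h => by
        have e1 := (descWhisker κ p (kernel.condition p) hex V (G.f V) (hκ V)).2
        have e2 := (descWhisker κ p (kernel.condition p) hex V' (G.f V') (hκ V')).2
        rw [← cancel_epi (p ▷ V), ← Category.assoc, ← whisker_exchange, Category.assoc, e2,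
          ← Category.assoc (p ▷ V), e1, G.nat] }
  have hH : ∀ V, p ▷ V ≫ H.f V = G.f V := fun V =>
    (descWhisker κ p (kernel.condition p) hex V (G.f V) (hκ V)).2
  have hHf : H.Faithful := by
    intro Y' v hv
    -- pull back along `p`
    let q : pullback p v ⟶ Y' := pullback.snd p v
    let x : pullback p v ⟶ Y ⊞ R := pullback.fst p v
    have hx : x ≫ p = q ≫ v := pullback.condition
    have hq : Epi q := inferInstance
    have h1 : ∀ V, x ▷ V ≫ G.f V = 0 := by
      intro V
      rw [← hH, ← Category.assoc, ← MonoidalCategory.comp_whiskerRight, hx,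
        MonoidalCategory.comp_whiskerRight, Category.assoc, hv, comp_zero]
    have h2 := (NatFam.mate_zero_iff hQ G x).2 h1
    have h3 : x ≫ p = 0 := by
      rw [← cancel_mono (Abelian.image.ι m), zero_comp, Category.assoc, Abelian.image.fac]
      exact h2
    rw [← cancel_epi q, ← hx, h3, comp_zero]
  let j : R ⟶ M := biprod.inr ≫ p
  have hj : ∀ V, j ▷ V ≫ H.f V = ρ.f V := by
    intro V
    rw [MonoidalCategory.comp_whiskerRight, Category.assoc, hH]
    change (biprod.inr : R ⟶ Y ⊞ R) ▷ V ≫ (_ + _) = _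
    rw [Preadditive.comp_add, ← Category.assoc, ← Category.assoc,
      ← MonoidalCategory.comp_whiskerRight, ← MonoidalCategory.comp_whiskerRight,
      biprod.inr_fst, biprod.inr_snd, MonoidalPreadditive.zero_whiskerRight, zero_comp,
      zero_add, MonoidalCategory.id_whiskerRight, Category.id_comp]
  have hmono : Mono j := Preadditive.mono_of_cancel_zero _ fun {Y'} v hv => by
    refine hρ _ v fun V => ?_
    rw [← hj, ← Category.assoc, ← MonoidalCategory.comp_whiskerRight, hv,
      MonoidalPreadditive.zero_whiskerRight, zero_comp]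
  have hiso : IsIso j := by
    have h1 := F.len_add hC (Fam.ses_mono j)
    simp only at h1
    have h3 : F.len k M ≤ F.len k R := by
      rw [hlen]
      exact le_csSup hB ⟨M, H, hHf, rfl⟩
    have h2 : IsZero (cokernel j) := by
      rw [← F.len_eq_zero_iff (k := k) hC]
      omega
    have : Epi j := Abelian.epi_of_cokernel_π_eq_zero j (h2.eq_of_tgt _ _)
    exact isIso_of_mono_of_epi j
  refine ⟨biprod.inl ≫ p ≫ inv j, fun V => ?_⟩
  rw [← hj, ← Category.assoc, ← MonoidalCategory.comp_whiskerRight]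
  have h1 : (biprod.inl ≫ p ≫ inv j) ≫ j = (biprod.inl : Y ⟶ Y ⊞ R) ≫ p := by
    simp only [Category.assoc, IsIso.inv_hom_id, Category.comp_id]
  rw [h1, MonoidalCategory.comp_whiskerRight, Category.assoc, hH]
  change (biprod.inl : Y ⟶ Y ⊞ R) ▷ V ≫ (_ + _) = _
  rw [Preadditive.comp_add, ← Category.assoc, ← Category.assoc,
    ← MonoidalCategory.comp_whiskerRight, ← MonoidalCategory.comp_whiskerRight,
    biprod.inl_fst, biprod.inl_snd, MonoidalPreadditive.zero_whiskerRight, zero_comp,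
    add_zero, MonoidalCategory.id_whiskerRight, Category.id_comp]

end Pool.Agent.NDC
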